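import Mathlib

/-!
# Semi-conditional grammars
-/

set_option autoImplicit false

namespace Pool.Agent.Q314.SC

/-- A rule `(A → x, α, β)` of a semi-conditional grammar with nonterminals `N` and terminals `T`.
The empty list stands for the condition `0` (no condition). -/
structure Rule (N T : Type) where
  /-- the rewritten nonterminal `A` -/
  lhs : N
  /-- the right hand side `x` -/
  rhs : List (N ⊕ T)
  /-- the permitting condition `α` -/
  perm : List (N ⊕ T)
  /-- the forbidding condition `β` -/
  forb : List (N ⊕ T)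

/-- A semi-conditional grammar with terminal alphabet `T`; its total alphabet is `N ⊕ T`. -/
structure Grammar (T : Type) where
  /-- the nonterminals -/
  N : Type
  finN : Finite N
  /-- the rules -/
  rules : Set (Rule N T)
  finRules : rules.Finite
  /-- the start symbol -/
  start : N

/-- Direct derivation: a rule `(A → x, α, β)` rewrites `u = u₁ A u₂` to `v = u₁ x u₂` if `α` is `0`
or a factor of `u` and `β` is `0` or not a factor of `u`. -/
def Step {N T : Type} (rules : Set (Rule N T)) (u v : List (N ⊕ T)) : Prop :=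
  ∃ r ∈ rules, ∃ u₁ u₂, u = u₁ ++ [Sum.inl r.lhs] ++ u₂ ∧ v = u₁ ++ r.rhs ++ u₂ ∧
    (r.perm ≠ [] → r.perm <:+: u) ∧ (r.forb ≠ [] → ¬ r.forb <:+: u)

namespace Grammar

variable {T : Type} (G : Grammar T)

/-- The generated language. -/
def lang : Set (List T) :=
  {w | Relation.ReflTransGen (Step G.rules) [Sum.inl G.start] (w.map Sum.inr)}

/-- Degree `(i, j)`. -/
def Degree (i j : ℕ) : Prop := ∀ r ∈ G.rules, r.perm.length ≤ i ∧ r.forb.length ≤ j

/-- Simple grammars: every rule has at most one of the two conditions. -/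
def Simple : Prop := ∀ r ∈ G.rules, r.perm = [] ∨ r.forb = []

/-- Propagating grammars: no rule has an empty right hand side. -/
def Propagating : Prop := ∀ r ∈ G.rules, r.rhs ≠ []

end Grammar

/-- The family `SC(i,j)` over the alphabet `T`. -/
def SC (T : Type) (i j : ℕ) : Set (Set (List T)) :=
  {L | ∃ G : Grammar T, G.Degree i j ∧ G.lang = L}

/-- The family `SSC(i,j)` over the alphabet `T`. -/
def SSC (T : Type) (i j : ℕ) : Set (Set (List T)) :=
  {L | ∃ G : Grammar T, G.Degree i j ∧ G.Simple ∧ G.lang = L}

/-- The family `SC^{-ε}(i,j)` over the alphabet `T`. -/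
def SCprop (T : Type) (i j : ℕ) : Set (Set (List T)) :=
  {L | ∃ G : Grammar T, G.Degree i j ∧ G.Propagating ∧ G.lang = L}

/-- The family `SSC^{-ε}(i,j)` over the alphabet `T`. -/
def SSCprop (T : Type) (i j : ℕ) : Set (Set (List T)) :=
  {L | ∃ G : Grammar T, G.Degree i j ∧ G.Simple ∧ G.Propagating ∧ G.lang = L}

end Pool.Agent.Q314.SC
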