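import Pool.Agent.Q314.SC.Defs

/-!
# Propagating simple semi-conditional grammars of degree (1,1) simulate all propagating
semi-conditional grammars of degree (1,1)
-/

set_option autoImplicit false

namespace Pool.Agent.Q314.SC

namespace Sim

variable {T : Type} (G : Grammar T)

/-- control states -/
inductive St (R : Type) : Type
  | s0 : St R
  | r1 : R → St R
  | r2 : R → St R
  | r3 : R → St R
  | r4 : R → St R

/-- nonterminals of the simulating grammar -/
inductive NT (N T R : Type) : Type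
  | orig : N → NT N T R
  | comp : St R → N ⊕ T → NT N T R
  | y : R → NT N T R
  | z : R → NT N T R

/-- the rules as an index type -/
abbrev R := {r : Rule G.N T // r ∈ G.rules}

abbrev N' := NT G.N T (R G)

instance finR : Finite (R G) := G.finRules.to_subtype

theorem finSt (R : Type) [Finite R] : Finite (St R) := by
  refine Finite.of_injective (β := Option (R × Fin 4)) (fun s => match s with
    | St.s0 => none
    | St.r1 r => some (r, 0)
    | St.r2 r => some (r, 1)
    | St.r3 r => some (r, 2)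
    | St.r4 r => some (r, 3)) ?_
  intro a b h
  cases a <;> cases b <;> simp at h ⊢ <;> exact h

theorem finNT (N T R : Type) [Finite N] [Finite T] [Finite R] : Finite (NT N T R) := by
  have := finSt R
  refine Finite.of_injective (β := N ⊕ (St R × (N ⊕ T)) ⊕ R ⊕ R) (fun s => match s with
    | NT.orig a => Sum.inl a
    | NT.comp q X => Sum.inr (Sum.inl (q, X))
    | NT.y r => Sum.inr (Sum.inr (Sum.inl r))
    | NT.z r => Sum.inr (Sum.inr (Sum.inr r))) ?_
  intro a b h
  cases a <;> cases b <;> simp at h ⊢ <;> exact h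

/-- embedding of the symbols -/
def e : G.N ⊕ T → N' G ⊕ T
  | Sum.inl A => Sum.inl (NT.orig A)
  | Sum.inr a => Sum.inr a

/-- decoding of the symbols -/
def d : N' G ⊕ T → G.N ⊕ T
  | Sum.inl (NT.orig A) => Sum.inl A
  | Sum.inl (NT.comp _ X) => X
  | Sum.inl (NT.y r) => Sum.inl r.1.lhs
  | Sum.inl (NT.z r) => Sum.inl r.1.lhs
  | Sum.inr a => Sum.inr a

@[simp] theorem d_e (X : G.N ⊕ T) : d G (e G X) = X := by
  cases X <;> rfl

@[simp] theorem map_d_e (u : List (G.N ⊕ T)) : (u.map (e G)).map (d G) = u := by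
  rw [List.map_map]
  have : (d G ∘ e G) = id := by funext X; simp
  rw [this, List.map_id]

/-- composite symbol -/
abbrev C (q : St (R G)) (X : G.N ⊕ T) : N' G ⊕ T := Sum.inl (NT.comp q X)

abbrev Y (r : R G) : N' G ⊕ T := Sum.inl (NT.y r)
abbrev Z (r : R G) : N' G ⊕ T := Sum.inl (NT.z r)

/-- the rules of the simulating grammar -/
inductive P : Rule (N' G) T → Prop
  | r1a (r : R G) (X : G.N ⊕ T)
      (h : r.1.perm = [] ∨ r.1.perm = [X]) :
      P ⟨NT.comp St.s0 X, [C G (St.r1 r) X], [], []⟩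
  | r1b (r : R G) (X : G.N ⊕ T) :
      P ⟨NT.comp St.s0 X, [C G (St.r1 r) X], r.1.perm.map (e G), []⟩
  | r2 (r : R G) (X : G.N ⊕ T) (h : X ∉ r.1.forb) (h' : Sum.inl r.1.lhs ∉ r.1.forb) :
      P ⟨NT.comp (St.r1 r) X, [C G (St.r2 r) X], [], r.1.forb.map (e G)⟩
  | r3 (r : R G) (x₁ : G.N ⊕ T) (x' : List (G.N ⊕ T)) (h : r.1.rhs = x₁ :: x')
      (h' : Sum.inl r.1.lhs ∉ r.1.forb) :
      P ⟨NT.comp (St.r1 r) (Sum.inl r.1.lhs), C G St.s0 x₁ :: x'.map (e G), [],
        r.1.forb.map (e G)⟩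
  | r4 (r : R G) (X : G.N ⊕ T) :
      P ⟨NT.orig r.1.lhs, [Y G r], [C G (St.r2 r) X], []⟩
  | r5 (r : R G) : P ⟨NT.y r, [Z G r], [], [Z G r]⟩
  | r6 (r : R G) (X : G.N ⊕ T) :
      P ⟨NT.comp (St.r2 r) X, [C G (St.r3 r) X], [Z G r], []⟩
  | r7 (r : R G) (X : G.N ⊕ T) :
      P ⟨NT.comp (St.r3 r) X, [C G (St.r4 r) X], [], [Y G r]⟩
  | r8 (r : R G) (X : G.N ⊕ T) :
      P ⟨NT.z r, r.1.rhs.map (e G), [C G (St.r4 r) X], []⟩
  | r9 (r : R G) (X : G.N ⊕ T) :
      P ⟨NT.comp (St.r4 r) X, [C G St.s0 X], [], [Z G r]⟩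
  | r10 (a : T) : P ⟨NT.comp St.s0 (Sum.inr a), [Sum.inr a], [], []⟩

theorem finP [Finite T] : {ρ | P G ρ}.Finite := by
  have := G.finN
  have hfin : (⋃ (r : R G), ⋃ (X : G.N ⊕ T), ({⟨NT.comp St.s0 X, [C G (St.r1 r) X], [], []⟩,
      ⟨NT.comp St.s0 X, [C G (St.r1 r) X], r.1.perm.map (e G), []⟩,
      ⟨NT.comp (St.r1 r) X, [C G (St.r2 r) X], [], r.1.forb.map (e G)⟩,
      ⟨NT.comp (St.r1 r) (Sum.inl r.1.lhs), C G St.s0 X :: r.1.rhs.tail.map (e G), [],
        r.1.forb.map (e G)⟩,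
      ⟨NT.orig r.1.lhs, [Y G r], [C G (St.r2 r) X], []⟩,
      ⟨NT.y r, [Z G r], [], [Z G r]⟩,
      ⟨NT.comp (St.r2 r) X, [C G (St.r3 r) X], [Z G r], []⟩,
      ⟨NT.comp (St.r3 r) X, [C G (St.r4 r) X], [], [Y G r]⟩,
      ⟨NT.z r, r.1.rhs.map (e G), [C G (St.r4 r) X], []⟩,
      ⟨NT.comp (St.r4 r) X, [C G St.s0 X], [], [Z G r]⟩} : Set (Rule (N' G) T))).Finite := by
    refine Set.finite_iUnion fun r => Set.finite_iUnion fun X => ?_
    exact Set.toFinite _
  have hfin2 : (Set.range fun a : T =>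
      (⟨NT.comp St.s0 (Sum.inr a), [Sum.inr a], [], []⟩ : Rule (N' G) T)).Finite :=
    Set.finite_range _
  refine (hfin.union hfin2).subset ?_
  intro ρ hρ
  cases hρ with
  | r1a r X h => left; simp only [Set.mem_iUnion]; exact ⟨r, X, by simp⟩
  | r1b r X => left; simp only [Set.mem_iUnion]; exact ⟨r, X, by simp⟩
  | r2 r X h h' => left; simp only [Set.mem_iUnion]; exact ⟨r, X, by simp⟩
  | r3 r x₁ x' h h' => left; simp only [Set.mem_iUnion]; exact ⟨r, x₁, by simp [h]⟩
  | r4 r X => left; simp only [Set.mem_iUnion]; exact ⟨r, X, by simp⟩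
  | r5 r => left; simp only [Set.mem_iUnion]; exact ⟨r, Sum.inl r.1.lhs, by simp⟩
  | r6 r X => left; simp only [Set.mem_iUnion]; exact ⟨r, X, by simp⟩
  | r7 r X => left; simp only [Set.mem_iUnion]; exact ⟨r, X, by simp⟩
  | r8 r X => left; simp only [Set.mem_iUnion]; exact ⟨r, X, by simp⟩
  | r9 r X => left; simp only [Set.mem_iUnion]; exact ⟨r, X, by simp⟩
  | r10 a => right; exact ⟨a, rfl⟩

/-- the set of rules -/
def PS : Set (Rule (N' G) T) := {ρ | P G ρ}

/-- the simulating grammar -/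
def G' [Finite T] : Grammar T where
  N := N' G
  finN := by have := G.finN; exact finNT _ _ _
  rules := PS G
  finRules := finP G
  start := NT.comp St.s0 (Sum.inl G.start)

variable {G}

theorem infix_singleton {α : Type} {b : α} {u : List α} : [b] <:+: u ↔ b ∈ u := by
  constructor
  · rintro ⟨a, c, rfl⟩
    simp
  · intro h
    obtain ⟨a, c, rfl⟩ := List.append_of_mem h
    exact ⟨a, c, by simp⟩

/-! ### Completeness -/

theorem step_mk [Finite T] {ρ : Rule (N' G) T} (h : P G ρ) (u₁ u₂ : List (N' G ⊕ T))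
    (hp : ρ.perm ≠ [] → ρ.perm <:+: u₁ ++ [Sum.inl ρ.lhs] ++ u₂)
    (hf : ρ.forb ≠ [] → ¬ ρ.forb <:+: u₁ ++ [Sum.inl ρ.lhs] ++ u₂) :
    Step (PS G) (u₁ ++ [Sum.inl ρ.lhs] ++ u₂) (u₁ ++ ρ.rhs ++ u₂) :=
  ⟨ρ, h, u₁, u₂, rfl, rfl, hp, hf⟩

theorem apply_noncomp [Finite T] (r : R G) (X : G.N ⊕ T)
    (K : St (R G) → List (N' G ⊕ T) → List (N' G ⊕ T))
    (hK1 : ∀ M, ∃ a b, ∀ q, K q M = a ++ [C G q X] ++ b)
    (hK2 : ∀ q, ∃ a b, ∀ M, K q M = a ++ M ++ b)
    (hK3 : ∀ q M c, c ∈ K q M → c ∈ M ∨ c = C G q X ∨ c ∈ Set.range (e G)) :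
    Relation.ReflTransGen (Step (PS G)) (K (St.r2 r) [Sum.inl (NT.orig r.1.lhs)])
      (K St.s0 (r.1.rhs.map (e G))) := by
  have hC : ∀ q M, C G q X ∈ K q M := by
    intro q M
    obtain ⟨a, b, h⟩ := hK1 M
    rw [h]; simp
  have hM : ∀ q M c, c ∈ M → c ∈ K q M := by
    intro q M c hc
    obtain ⟨a, b, h⟩ := hK2 q
    rw [h]; simp [hc]
  have he : ∀ (n : N' G) X', (∀ A, n ≠ NT.orig A) → e G X' ≠ Sum.inl n := by
    intro n X' hn
    cases X' with
    | inl A => intro h; exact hn A (Sum.inl.inj h).symm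
    | inr a => intro h; cases h
  -- A → Y
  have s1 : Step (PS G) (K (St.r2 r) [Sum.inl (NT.orig r.1.lhs)]) (K (St.r2 r) [Y G r]) := by
    obtain ⟨a, b, h⟩ := hK2 (St.r2 r)
    have h1 := hC (St.r2 r) [Sum.inl (NT.orig r.1.lhs)]
    rw [h] at h1
    rw [h, h]
    refine step_mk (P.r4 r X) a b (fun _ => ?_) (by simp)
    exact infix_singleton.2 h1
  have s2 : Step (PS G) (K (St.r2 r) [Y G r]) (K (St.r2 r) [Z G r]) := by
    obtain ⟨a, b, h⟩ := hK2 (St.r2 r)
    have h1 : Z G r ∉ K (St.r2 r) [Y G r] := by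
      intro hz
      rcases hK3 _ _ _ hz with hz | hz | ⟨X', hz⟩
      · simp at hz
      · simp at hz
      · exact he (NT.z r) X' (by simp) hz
    rw [h] at h1
    rw [h, h]
    refine step_mk (P.r5 r) a b (by simp) (fun _ => ?_)
    rw [infix_singleton]
    exact h1
  have s3 : Step (PS G) (K (St.r2 r) [Z G r]) (K (St.r3 r) [Z G r]) := by
    obtain ⟨a, b, h⟩ := hK1 [Z G r]
    have h1 := hM (St.r2 r) [Z G r] (Z G r) (by simp)
    rw [h] at h1
    rw [h, h]
    refine step_mk (P.r6 r X) a b (fun _ => ?_) (by simp)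
    exact infix_singleton.2 h1
  have s4 : Step (PS G) (K (St.r3 r) [Z G r]) (K (St.r4 r) [Z G r]) := by
    obtain ⟨a, b, h⟩ := hK1 [Z G r]
    have h1 : Y G r ∉ K (St.r3 r) [Z G r] := by
      intro hz
      rcases hK3 _ _ _ hz with hz | hz | ⟨X', hz⟩
      · simp at hz
      · simp at hz
      · exact he (NT.y r) X' (by simp) hz
    rw [h] at h1
    rw [h, h]
    refine step_mk (P.r7 r X) a b (by simp) (fun _ => ?_)
    rw [infix_singleton]
    exact h1
  have s5 : Step (PS G) (K (St.r4 r) [Z G r]) (K (St.r4 r) (r.1.rhs.map (e G))) := by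
    obtain ⟨a, b, h⟩ := hK2 (St.r4 r)
    have h1 := hC (St.r4 r) [Z G r]
    rw [h] at h1
    rw [h, h]
    refine step_mk (P.r8 r X) a b (fun _ => ?_) (by simp)
    exact infix_singleton.2 h1
  have s6 : Step (PS G) (K (St.r4 r) (r.1.rhs.map (e G))) (K St.s0 (r.1.rhs.map (e G))) := by
    obtain ⟨a, b, h⟩ := hK1 (r.1.rhs.map (e G))
    have h1 : Z G r ∉ K (St.r4 r) (r.1.rhs.map (e G)) := by
      intro hz
      rcases hK3 _ _ _ hz with hz | hz | ⟨X', hz⟩
      · obtain ⟨X', -, hz⟩ := List.mem_map.1 hz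
        exact he (NT.z r) X' (by simp) hz
      · simp at hz
      · exact he (NT.z r) X' (by simp) hz
    rw [h] at h1
    rw [h, h]
    refine step_mk (P.r9 r X) a b (by simp) (fun _ => ?_)
    rw [infix_singleton]
    exact h1
  exact (((((Relation.ReflTransGen.single s1).tail s2).tail s3).tail s4).tail s5).tail s6

/-- encoded form -/
def F0 (q : St (R G)) (u₁ : List (G.N ⊕ T)) (X : G.N ⊕ T) (u₂ : List (G.N ⊕ T)) :
    List (N' G ⊕ T) :=
  u₁.map (e G) ++ [C G q X] ++ u₂.map (e G)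

theorem e_inj : Function.Injective (e G) := by
  intro a b h
  have := congrArg (d G) h
  simpa using this

theorem mem_F0 (q : St (R G)) (u₁ : List (G.N ⊕ T)) (X : G.N ⊕ T) (u₂ : List (G.N ⊕ T))
    (b : G.N ⊕ T) : e G b ∈ F0 q u₁ X u₂ ↔ b ∈ u₁ ∨ b ∈ u₂ := by
  unfold F0
  simp only [List.mem_append, List.mem_map, List.mem_singleton]
  constructor
  · rintro ((⟨a, ha, h⟩ | h) | ⟨a, ha, h⟩)
    · left; rwa [← e_inj h]
    · cases b <;> simp [e] at h
    · right; rwa [← e_inj h]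
  · rintro (h | h)
    · exact Or.inl (Or.inl ⟨b, h, rfl⟩)
    · exact Or.inr ⟨b, h, rfl⟩

theorem len1 {α : Type} {l : List α} (h : l.length ≤ 1) : l = [] ∨ ∃ b, l = [b] := by
  match l, h with
  | [], _ => exact Or.inl rfl
  | [b], _ => exact Or.inr ⟨b, rfl⟩
  | _ :: _ :: _, h => simp at h

theorem simulate [Finite T] (hd : G.Degree 1 1) (hp : G.Propagating)
    (u₁ u₂ : List (G.N ⊕ T)) (X : G.N ⊕ T) (v : List (G.N ⊕ T))
    (h : (Step G.rules) (u₁ ++ [X] ++ u₂) v) : ∃ w₁ X' w₂, v = w₁ ++ [X'] ++ w₂ ∧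
      Relation.ReflTransGen (Step (PS G)) (F0 St.s0 u₁ X u₂) (F0 St.s0 w₁ X' w₂) := by
  obtain ⟨r0, hr, v₁, v₂, hu, rfl, hperm, hforb⟩ := h
  set r : R G := ⟨r0, hr⟩ with hrdef
  have hlp : r0.perm.length ≤ 1 := (hd r0 hr).1
  have hlf : r0.forb.length ≤ 1 := (hd r0 hr).2
  -- permitting check
  have s1 : Step (PS G) (F0 St.s0 u₁ X u₂) (F0 (St.r1 r) u₁ X u₂) := by
    rcases len1 hlp with h0 | ⟨b, hb⟩
    · exact step_mk (P.r1a r X (Or.inl h0)) _ _ (by simp) (by simp)
    · have hmem : b ∈ u₁ ++ [X] ++ u₂ := by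
        rw [← infix_singleton, ← hb]
        exact hperm (by simp [hb])
      by_cases hbX : b = X
      · exact step_mk (P.r1a r X (Or.inr (by rw [← hbX]; exact hb))) _ _ (by simp) (by simp)
      · have hmem' : b ∈ u₁ ∨ b ∈ u₂ := by
          simp only [List.mem_append, List.mem_singleton] at hmem
          tauto
        refine step_mk (P.r1b r X) _ _ (fun _ => ?_) (by simp)
        have : (r.1.perm.map (e G)) = [e G b] := by simp [hrdef, hb]
        change r.1.perm.map (e G) <:+: F0 St.s0 u₁ X u₂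
        rw [this, infix_singleton, mem_F0]
        exact hmem'
  -- facts on the forbidding condition
  have hfmem : ∀ c ∈ r0.forb, c ∉ u₁ ++ [X] ++ u₂ := by
    intro c hc
    rcases len1 hlf with h0 | ⟨b, hb⟩
    · simp [h0] at hc
    · have hcb : c = b := by simpa [hb] using hc
      have := hforb (by simp [hb])
      rw [hb, infix_singleton] at this
      rw [hcb]; exact this
  have hfX : X ∉ r0.forb := fun h => hfmem X h (by simp)
  have hfA : Sum.inl r0.lhs ∉ r0.forb := fun h => hfmem _ h (by rw [hu]; simp)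
  have hfc : r0.forb.map (e G) ≠ [] → ¬ r0.forb.map (e G) <:+: F0 (St.r1 r) u₁ X u₂ := by
    intro _ hi
    rcases len1 hlf with h0 | ⟨b, hb⟩
    · simp_all
    · have : (r0.forb.map (e G)) = [e G b] := by simp [hb]
      rw [this, infix_singleton, mem_F0] at hi
      have := hfmem b (by simp [hb])
      simp only [List.mem_append] at this
      tauto
  have s2 : Step (PS G) (F0 (St.r1 r) u₁ X u₂) (F0 (St.r2 r) u₁ X u₂) :=
    step_mk (P.r2 r X hfX hfA) _ _ (by simp) hfc
  -- position of the rewritten symbol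
  have hcases : (v₁ = u₁ ∧ X = Sum.inl r0.lhs ∧ v₂ = u₂) ∨
      (∃ t, u₁ = v₁ ++ [Sum.inl r0.lhs] ++ t ∧ v₂ = t ++ [X] ++ u₂) ∨
      (∃ t, v₁ = u₁ ++ [X] ++ t ∧ u₂ = t ++ [Sum.inl r0.lhs] ++ v₂) := by
    rw [List.append_assoc, List.append_assoc, List.append_eq_append_iff] at hu
    rcases hu with ⟨t, h1, h2⟩ | ⟨t, h1, h2⟩
    · cases t with
      | nil =>
        left
        simp at h1 h2
        exact ⟨h1, h2.1, h2.2.symm⟩
      | cons z t =>
        right; right
        simp at h2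
        exact ⟨t, by simp [h1, h2.1], by simp [h2.2]⟩
    · cases t with
      | nil =>
        left
        simp at h1 h2
        exact ⟨h1.symm, h2.1.symm, h2.2⟩
      | cons z t =>
        right; left
        simp at h2
        exact ⟨t, by simp [h1, h2.1], by simp [h2.2]⟩
  rcases hcases with ⟨rfl, rfl, rfl⟩ | ⟨t, rfl, rfl⟩ | ⟨t, rfl, rfl⟩
  · -- the composite symbol is rewritten
    obtain ⟨x₁, x', hx⟩ : ∃ x₁ x', r0.rhs = x₁ :: x' := by
      cases h : r0.rhs with
      | nil => exact absurd h (hp r0 hr)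
      | cons a b => exact ⟨a, b, rfl⟩
    refine ⟨v₁, x₁, x' ++ v₂, by simp [hx], ?_⟩
    have s3 : Step (PS G) (F0 (St.r1 r) v₁ (Sum.inl r0.lhs) v₂)
        (F0 St.s0 v₁ x₁ (x' ++ v₂)) := by
      have := step_mk (P.r3 r x₁ x' hx hfA) (v₁.map (e G)) (v₂.map (e G)) (by simp) hfc
      have h2 : F0 St.s0 v₁ x₁ (x' ++ v₂) =
          v₁.map (e G) ++ (C G St.s0 x₁ :: x'.map (e G)) ++ v₂.map (e G) := by
        simp [F0]
      rw [h2]
      exact this
    exact (Relation.ReflTransGen.single s1).tail s3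
  · refine ⟨v₁ ++ r0.rhs ++ t, X, u₂, by simp, ?_⟩
    have key := apply_noncomp r X
      (fun q M => v₁.map (e G) ++ M ++ t.map (e G) ++ [C G q X] ++ u₂.map (e G))
      (fun M => ⟨v₁.map (e G) ++ M ++ t.map (e G), u₂.map (e G), fun q => rfl⟩)
      (fun q => ⟨v₁.map (e G), t.map (e G) ++ [C G q X] ++ u₂.map (e G), fun M => by simp⟩)
      (by
        intro q M c hc
        simp only [List.mem_append, List.mem_map, List.mem_singleton] at hc
        rcases hc with (((⟨a, -, h⟩ | h) | ⟨a, -, h⟩) | h) | ⟨a, -, h⟩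
        · exact Or.inr (Or.inr ⟨a, h⟩)
        · exact Or.inl h
        · exact Or.inr (Or.inr ⟨a, h⟩)
        · exact Or.inr (Or.inl h)
        · exact Or.inr (Or.inr ⟨a, h⟩))
    refine ((Relation.ReflTransGen.single s1).tail s2).trans ?_
    have h1 : F0 (St.r2 r) (v₁ ++ [Sum.inl r0.lhs] ++ t) X u₂ =
        v₁.map (e G) ++ [Sum.inl (NT.orig r.1.lhs)] ++ t.map (e G) ++ [C G (St.r2 r) X] ++
          u₂.map (e G) := by
      simp [F0, e, hrdef]
    have h2 : F0 St.s0 (v₁ ++ r0.rhs ++ t) X u₂ =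
        v₁.map (e G) ++ r.1.rhs.map (e G) ++ t.map (e G) ++ [C G St.s0 X] ++
          u₂.map (e G) := by
      simp [F0, hrdef]
    rw [h1, h2]
    exact key
  · refine ⟨u₁, X, t ++ r0.rhs ++ v₂, by simp, ?_⟩
    have key := apply_noncomp r X
      (fun q M => u₁.map (e G) ++ [C G q X] ++ t.map (e G) ++ M ++ v₂.map (e G))
      (fun M => ⟨u₁.map (e G), t.map (e G) ++ M ++ v₂.map (e G), fun q => by simp⟩)
      (fun q => ⟨u₁.map (e G) ++ [C G q X] ++ t.map (e G), v₂.map (e G), fun M => rfl⟩)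
      (by
        intro q M c hc
        simp only [List.mem_append, List.mem_map, List.mem_singleton] at hc
        rcases hc with (((⟨a, -, h⟩ | h) | ⟨a, -, h⟩) | h) | ⟨a, -, h⟩
        · exact Or.inr (Or.inr ⟨a, h⟩)
        · exact Or.inr (Or.inl h)
        · exact Or.inr (Or.inr ⟨a, h⟩)
        · exact Or.inl h
        · exact Or.inr (Or.inr ⟨a, h⟩))
    refine ((Relation.ReflTransGen.single s1).tail s2).trans ?_
    have h1 : F0 (St.r2 r) u₁ X (t ++ [Sum.inl r0.lhs] ++ v₂) =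
        u₁.map (e G) ++ [C G (St.r2 r) X] ++ t.map (e G) ++ [Sum.inl (NT.orig r.1.lhs)] ++
          v₂.map (e G) := by
      simp [F0, e, hrdef]
    have h2 : F0 St.s0 u₁ X (t ++ r0.rhs ++ v₂) =
        u₁.map (e G) ++ [C G St.s0 X] ++ t.map (e G) ++ r.1.rhs.map (e G) ++
          v₂.map (e G) := by
      simp [F0, hrdef]
    rw [h1, h2]
    exact key

theorem complete [Finite T] (hd : G.Degree 1 1) (hp : G.Propagating) :
    G.lang ⊆ (G' G).lang := by
  intro w hw
  have key : ∀ u, Relation.ReflTransGen (Step G.rules) [Sum.inl G.start] u →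
      ∃ u₁ X u₂, u = u₁ ++ [X] ++ u₂ ∧
        Relation.ReflTransGen (Step (PS G)) [C G St.s0 (Sum.inl G.start)] (F0 St.s0 u₁ X u₂) := by
    intro u hu
    induction hu with
    | refl => exact ⟨[], Sum.inl G.start, [], by simp, by exact Relation.ReflTransGen.refl⟩
    | tail _ hstep ih =>
      obtain ⟨u₁, X, u₂, rfl, ih⟩ := ih
      obtain ⟨w₁, X', w₂, rfl, h⟩ := simulate hd hp _ _ _ _ hstep
      exact ⟨w₁, X', w₂, rfl, ih.trans h⟩
  obtain ⟨u₁, X, u₂, hu, h⟩ := key _ hw
  obtain ⟨w₁, w', rfl, h1, h2⟩ := List.map_eq_append_iff.1 hu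
  obtain ⟨w₁', w₂', rfl, h3, h4⟩ := List.map_eq_append_iff.1 h1
  obtain ⟨a, rfl, rfl⟩ : ∃ a, w₂' = [a] ∧ X = Sum.inr a := by
    cases w₂' with
    | nil => simp at h4
    | cons a t =>
      simp at h4
      exact ⟨a, by simp [h4.2], h4.1.symm⟩
  subst h3
  subst h2
  have hcomp : (e G ∘ Sum.inr : T → N' G ⊕ T) = Sum.inr := rfl
  have h5 : ((w₁'.map Sum.inr).map (e G) ++ [Sum.inr a] ++ (w'.map Sum.inr).map (e G) :
      List (N' G ⊕ T)) = (w₁' ++ [a] ++ w').map Sum.inr := by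
    simp [List.map_map, hcomp]
  have h6 : Step (PS G) (F0 St.s0 (w₁'.map Sum.inr) (Sum.inr a) (w'.map Sum.inr))
      ((w₁'.map Sum.inr).map (e G) ++ [Sum.inr a] ++ (w'.map Sum.inr).map (e G)) :=
    step_mk (P.r10 (G := G) a) ((w₁'.map Sum.inr).map (e G)) ((w'.map Sum.inr).map (e G))
    (by simp) (by simp)
  have h7 := h.tail h6
  rw [h5] at h7
  exact h7

/-! ### Soundness -/

/-- composite symbols -/
def isC : N' G ⊕ T → Bool
  | Sum.inl (NT.comp _ _) => true
  | _ => false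

/-- symbols allowed in the control state `q` -/
def allowed (q : St (R G)) : N' G ⊕ T → Prop
  | Sum.inl (NT.orig _) => True
  | Sum.inl (NT.comp p _) => p = q
  | Sum.inl (NT.y r) => q = St.r2 r ∨ q = St.r3 r
  | Sum.inl (NT.z r) => q = St.r2 r ∨ q = St.r3 r ∨ q = St.r4 r
  | Sum.inr _ => True

/-- the conditions of the rule `r` hold for `u` -/
def permOK (r : R G) (u : List (G.N ⊕ T)) : Prop := r.1.perm ≠ [] → r.1.perm <:+: u
def forbOK (r : R G) (u : List (G.N ⊕ T)) : Prop := r.1.forb ≠ [] → ¬ r.1.forb <:+: u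

open Classical in
/-- the number of marked symbols -/
noncomputable def cz (r : R G) (s : List (N' G ⊕ T)) : ℕ := s.countP (fun c => decide (c = Z G r))

/-- side conditions -/
def side (s : List (N' G ⊕ T)) : St (R G) → Prop
  | St.s0 => True
  | St.r1 r => permOK r (s.map (d G))
  | St.r2 r => permOK r (s.map (d G)) ∧ forbOK r (s.map (d G)) ∧ cz r s ≤ 1
  | St.r3 r => permOK r (s.map (d G)) ∧ forbOK r (s.map (d G)) ∧ cz r s = 1
  | St.r4 r => cz r s = 0 ∨
      (cz r s = 1 ∧ permOK r (s.map (d G)) ∧ forbOK r (s.map (d G)))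

/-- the invariant -/
def Inv (s : List (N' G ⊕ T)) : Prop :=
  Relation.ReflTransGen (Step G.rules) [Sum.inl G.start] (s.map (d G)) ∧
    ((∀ c ∈ s, isC c = false ∧ allowed St.s0 c) ∨
      ∃ q, s.countP isC = 1 ∧ (∀ c ∈ s, allowed q c) ∧ side s q)

theorem forb_lift (hd : G.Degree 1 1) (r : R G) (X : G.N ⊕ T) (q : St (R G))
    (u₁ u₂ : List (N' G ⊕ T)) (hX : X ∉ r.1.forb)
    (hq : q = St.s0 ∨ q = St.r1 r)
    (h1 : ∀ c ∈ u₁ ++ u₂, isC c = false ∧ allowed q c)
    (hf : r.1.forb.map (e G) ≠ [] → ¬ r.1.forb.map (e G) <:+: u₁ ++ [C G q X] ++ u₂) :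
    forbOK r ((u₁ ++ [C G q X] ++ u₂).map (d G)) := by
  intro hne hi
  rcases len1 (hd r.1 r.2).2 with h0 | ⟨b, hb⟩
  · exact hne h0
  · rw [hb, infix_singleton] at hi
    have h2 : r.1.forb.map (e G) = [e G b] := by simp [hb]
    rw [h2, infix_singleton] at hf
    obtain ⟨c, hc, hcb⟩ := List.mem_map.1 hi
    simp only [List.mem_append, List.mem_singleton] at hc
    have key : ∀ c ∈ u₁ ++ u₂, d G c ≠ b := by
      intro c hc hcb
      obtain ⟨h3, h4⟩ := h1 c hc
      apply hf (by simp)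
      have : c = e G b := by
        match c, h3, h4, hcb with
        | Sum.inl (NT.orig A), _, _, hcb => rw [← hcb]; rfl
        | Sum.inl (NT.comp _ _), h3, _, _ => simp [isC] at h3
        | Sum.inl (NT.y r'), _, h4, _ => rcases hq with rfl | rfl <;> simp [allowed] at h4
        | Sum.inl (NT.z r'), _, h4, _ => rcases hq with rfl | rfl <;> simp [allowed] at h4
        | Sum.inr a, _, _, hcb => rw [← hcb]; rfl
      rw [← this]
      simp only [List.mem_append] at hc ⊢
      tauto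
    rcases hc with (hc | hc) | hc
    · exact key c (by simp [hc]) hcb
    · subst hc
      exact hX (by rw [hb]; simpa [d] using hcb)
    · exact key c (by simp [hc]) hcb

theorem countP_split {α : Type} (p : α → Bool) (u₁ u₂ : List α) (c : α) (hc : p c = true)
    (h : (u₁ ++ [c] ++ u₂).countP p = 1) : ∀ b ∈ u₁ ++ u₂, p b = false := by
  rw [List.countP_append, List.countP_append] at h
  have h1 : [c].countP p = 1 := by simp [hc]
  rw [h1] at h
  have h2 : u₁.countP p = 0 := by omega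
  have h3 : u₂.countP p = 0 := by omega
  rw [List.countP_eq_zero] at h2 h3
  intro b hb
  rcases List.mem_append.1 hb with hb | hb
  · simpa using h2 b hb
  · simpa using h3 b hb

theorem countP_eq_one {α : Type} (p : α → Bool) (u₁ u₂ m : List α)
    (h : ∀ b ∈ u₁ ++ u₂, p b = false) (hm : m.countP p = 1) :
    (u₁ ++ m ++ u₂).countP p = 1 := by
  rw [List.countP_append, List.countP_append, hm]
  have h2 : u₁.countP p = 0 := by
    rw [List.countP_eq_zero]
    intro a ha
    simp [h a (by simp [ha])]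
  have h3 : u₂.countP p = 0 := by
    rw [List.countP_eq_zero]
    intro a ha
    simp [h a (by simp [ha])]
  omega

theorem isC_e (X : G.N ⊕ T) : isC (e G X) = false := by
  cases X <;> rfl

theorem allowed_e (q : St (R G)) (X : G.N ⊕ T) : allowed q (e G X) := by
  cases X <;> simp [e, allowed]

theorem countP_e (u : List (G.N ⊕ T)) : (u.map (e G)).countP isC = 0 := by
  rw [List.countP_eq_zero]
  intro a ha
  obtain ⟨X, -, rfl⟩ := List.mem_map.1 ha
  simp [isC_e]

theorem Z_ne_e (r : R G) (X : G.N ⊕ T) : Z G r ≠ e G X := by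
  cases X <;> simp [e]

theorem cz_e (r : R G) (u : List (G.N ⊕ T)) : cz r (u.map (e G)) = 0 := by
  unfold cz
  rw [List.countP_eq_zero]
  intro c hc
  obtain ⟨X, -, hX⟩ := List.mem_map.1 hc
  simp only [decide_eq_true_eq]
  rw [← hX]
  exact fun h => Z_ne_e r X h.symm

theorem cz_append (r : R G) (u v : List (N' G ⊕ T)) : cz r (u ++ v) = cz r u + cz r v := by
  unfold cz
  exact List.countP_append

theorem cz_single (r : R G) (c : N' G ⊕ T) (h : c ≠ Z G r) : cz r [c] = 0 := by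
  simp [cz, h]

theorem cz_Z (r : R G) : cz r [Z G r] = 1 := by
  simp [cz]

theorem cz_eq_zero (r : R G) (u : List (N' G ⊕ T)) : cz r u = 0 ↔ Z G r ∉ u := by
  unfold cz
  rw [List.countP_eq_zero]
  constructor
  · intro h h'
    exact h _ h' (by simp)
  · intro h c hc hcz
    simp only [decide_eq_true_eq] at hcz
    exact h (hcz ▸ hc)

theorem plain_of {q : St (R G)} {c : N' G ⊕ T} (hq : q = St.s0 ∨ ∃ r, q = St.r1 r)
    (hc : isC c = false) (ha : allowed q c) : ∃ X, c = e G X := by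
  match c, hc, ha with
  | Sum.inl (NT.orig A), _, _ => exact ⟨Sum.inl A, rfl⟩
  | Sum.inl (NT.comp _ _), hc, _ => simp [isC] at hc
  | Sum.inl (NT.y r'), _, h4 => rcases hq with rfl | ⟨r, rfl⟩ <;> simp [allowed] at h4
  | Sum.inl (NT.z r'), _, h4 => rcases hq with rfl | ⟨r, rfl⟩ <;> simp [allowed] at h4
  | Sum.inr a, _, _ => exact ⟨Sum.inr a, rfl⟩

theorem allowed_23 {r : R G} {c : N' G ⊕ T} (hc : isC c = false) (ha : allowed (St.r2 r) c) :
    allowed (St.r3 r) c := by
  match c, hc, ha with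
  | Sum.inl (NT.orig A), _, _ => trivial
  | Sum.inl (NT.comp _ _), hc, _ => simp [isC] at hc
  | Sum.inl (NT.y r'), _, h4 => simpa [allowed] using h4
  | Sum.inl (NT.z r'), _, h4 => simpa [allowed] using h4
  | Sum.inr a, _, _ => trivial

theorem allowed_34 {r : R G} {c : N' G ⊕ T} (hc : isC c = false) (ha : allowed (St.r3 r) c)
    (hY : c ≠ Y G r) : allowed (St.r4 r) c := by
  match c, hc, ha, hY with
  | Sum.inl (NT.orig A), _, _, _ => trivial
  | Sum.inl (NT.comp _ _), hc, _, _ => simp [isC] at hc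
  | Sum.inl (NT.y r'), _, h4, hY =>
    simp only [allowed, reduceCtorEq, false_or] at h4
    exact absurd (by rw [St.r3.inj h4]) hY
  | Sum.inl (NT.z r'), _, h4, _ => simpa [allowed] using h4
  | Sum.inr a, _, _, _ => trivial

theorem plain_of4 {r : R G} {c : N' G ⊕ T} (hc : isC c = false) (ha : allowed (St.r4 r) c)
    (hZ : c ≠ Z G r) : ∃ X, c = e G X := by
  match c, hc, ha, hZ with
  | Sum.inl (NT.orig A), _, _, _ => exact ⟨Sum.inl A, rfl⟩
  | Sum.inl (NT.comp _ _), hc, _, _ => simp [isC] at hc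
  | Sum.inl (NT.y r'), _, h4, _ => simp [allowed] at h4
  | Sum.inl (NT.z r'), _, h4, hZ =>
    simp only [allowed, reduceCtorEq, false_or] at h4
    exact absurd (by rw [St.r4.inj h4]) hZ
  | Sum.inr a, _, _, _ => exact ⟨Sum.inr a, rfl⟩

theorem cz_plain {r : R G} {u : List (N' G ⊕ T)} (h : ∀ c ∈ u, ∃ X, c = e G X) :
    cz r u = 0 := by
  rw [cz_eq_zero]
  intro hZ
  obtain ⟨X, hX⟩ := h _ hZ
  exact Z_ne_e r X hX

theorem build {u₁ u₂ m : List (N' G ⊕ T)} {q : St (R G)}
    (hder : Relation.ReflTransGen (Step G.rules) [Sum.inl G.start]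
      ((u₁ ++ m ++ u₂).map (d G)))
    (hcnt : (u₁ ++ m ++ u₂).countP isC = 1) (hm : ∀ c ∈ m, allowed q c)
    (ha : ∀ c ∈ u₁ ++ u₂, allowed q c) (hside : side (u₁ ++ m ++ u₂) q) :
    Inv (u₁ ++ m ++ u₂) := by
  refine ⟨hder, Or.inr ⟨q, hcnt, ?_, hside⟩⟩
  intro c hc
  simp only [List.mem_append] at hc ha
  rcases hc with (hc | hc) | hc
  · exact ha c (Or.inl hc)
  · exact hm c hc
  · exact ha c (Or.inr hc)

theorem inv_step (hd : G.Degree 1 1) {s t : List (N' G ⊕ T)} (hs : Inv s)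
    (h : Step (PS G) s t) : Inv t := by
  classical
  obtain ⟨ρ, hρ, u₁, u₂, rfl, rfl, hperm, hforb⟩ := h
  obtain ⟨hder, hs⟩ := hs
  -- the composite-free case
  have hfree : (∀ c ∈ u₁ ++ [Sum.inl ρ.lhs] ++ u₂, isC c = false ∧ allowed St.s0 c) → False := by
    intro hall
    have h1 := hall (Sum.inl ρ.lhs) (by simp)
    change P G ρ at hρ
    cases hρ with
    | r1a r X h => simp [isC] at h1
    | r1b r X => simp [isC] at h1
    | r2 r X h h' => simp [isC] at h1
    | r3 r x₁ x' h h' => simp [isC] at h1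
    | r4 r X =>
      have h2 := hperm (by simp)
      have h3 : C G (St.r2 r) X ∈ u₁ ++ [Sum.inl (NT.orig r.1.lhs)] ++ u₂ :=
        infix_singleton.1 h2
      have := hall _ h3
      simp [isC] at this
    | r5 r => simp [allowed] at h1
    | r6 r X => simp [isC] at h1
    | r7 r X => simp [isC] at h1
    | r8 r X => simp [allowed] at h1
    | r9 r X => simp [isC] at h1
    | r10 a => simp [isC] at h1
  rcases hs with hs | ⟨q, hcnt, hall, hside⟩
  · exact (hfree hs).elim
  have hq := hall (Sum.inl ρ.lhs) (by simp)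
  change P G ρ at hρ
  have hall₁ : ∀ c ∈ u₁ ++ u₂, allowed q c := fun c hc => hall c (by
    simp only [List.mem_append] at hc ⊢; tauto)
  cases hρ with
  | r1a r X h =>
    have hq' : St.s0 = q := hq
    subst hq'
    have hnc := countP_split isC u₁ u₂ _ rfl hcnt
    have hdec : (u₁ ++ [C G (St.r1 r) X] ++ u₂).map (d G) =
        (u₁ ++ [C G St.s0 X] ++ u₂).map (d G) := by simp [d]
    refine build (hdec ▸ hder) (countP_eq_one isC u₁ u₂ _ hnc rfl) (by simp [allowed])
      (q := St.r1 r) ?_ ?_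
    · intro c hc
      obtain ⟨X, rfl⟩ := plain_of (Or.inl rfl) (hnc c hc) (hall₁ c hc)
      exact allowed_e _ _
    · change permOK r _
      intro hne
      rcases h with h | h
      · exact absurd h hne
      · rw [h, infix_singleton]
        simp [d]
  | r1b r X =>
    have hq' : St.s0 = q := hq
    subst hq'
    have hnc := countP_split isC u₁ u₂ _ rfl hcnt
    have hdec : (u₁ ++ [C G (St.r1 r) X] ++ u₂).map (d G) =
        (u₁ ++ [C G St.s0 X] ++ u₂).map (d G) := by simp [d]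
    refine build (hdec ▸ hder) (countP_eq_one isC u₁ u₂ _ hnc rfl) (by simp [allowed])
      (q := St.r1 r) ?_ ?_
    · intro c hc
      obtain ⟨X, rfl⟩ := plain_of (Or.inl rfl) (hnc c hc) (hall₁ c hc)
      exact allowed_e _ _
    · change permOK r _
      intro hne
      rw [hdec]
      have h1 : r.1.perm.map (e G) <:+: u₁ ++ [C G St.s0 X] ++ u₂ :=
        hperm (by simpa using hne)
      have h2 := h1.map (d G)
      rwa [map_d_e] at h2
  | r2 r X h h' =>
    have hq' : St.r1 r = q := hq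
    subst hq'
    have hnc := countP_split isC u₁ u₂ _ rfl hcnt
    have hdec : (u₁ ++ [C G (St.r2 r) X] ++ u₂).map (d G) =
        (u₁ ++ [C G (St.r1 r) X] ++ u₂).map (d G) := by simp [d]
    have hpl : ∀ c ∈ u₁ ++ u₂, ∃ X, c = e G X := fun c hc =>
      plain_of (Or.inr ⟨r, rfl⟩) (hnc c hc) (hall₁ c hc)
    refine build (hdec ▸ hder) (countP_eq_one isC u₁ u₂ _ hnc rfl) (by simp [allowed])
      (q := St.r2 r) ?_ ⟨?_, ?_, ?_⟩
    · intro c hc
      obtain ⟨X, rfl⟩ := hpl c hc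
      exact allowed_e _ _
    · rw [hdec]; exact hside
    · rw [hdec]
      exact forb_lift hd r X _ u₁ u₂ h (Or.inr rfl) (fun c hc => ⟨hnc c hc, hall₁ c hc⟩) hforb
    · rw [cz_append, cz_append, cz_single r _ (by simp)]
      rw [cz_plain (fun c hc => hpl c (by simp [hc])), cz_plain (fun c hc => hpl c (by simp [hc]))]
      simp
  | r3 r x₁ x' h h' =>
    have hq' : St.r1 r = q := hq
    subst hq'
    have hnc := countP_split isC u₁ u₂ _ rfl hcnt
    have hpl : ∀ c ∈ u₁ ++ u₂, ∃ X, c = e G X := fun c hc =>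
      plain_of (Or.inr ⟨r, rfl⟩) (hnc c hc) (hall₁ c hc)
    have hf := forb_lift hd r (Sum.inl r.1.lhs) _ u₁ u₂ h' (Or.inr rfl)
      (fun c hc => ⟨hnc c hc, hall₁ c hc⟩) hforb
    have hstep : Step G.rules ((u₁ ++ [C G (St.r1 r) (Sum.inl r.1.lhs)] ++ u₂).map (d G))
        ((u₁ ++ (C G St.s0 x₁ :: x'.map (e G)) ++ u₂).map (d G)) := by
      refine ⟨r.1, r.2, u₁.map (d G), u₂.map (d G), by simp [d], ?_, hside, hf⟩
      rw [h, List.map_append, List.map_append, List.map_cons, map_d_e]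
      rfl
    refine build (hder.tail hstep) (countP_eq_one isC u₁ u₂ _ hnc ?_) ?_
      (q := St.s0) ?_ trivial
    · rw [List.countP_cons, countP_e]; rfl
    · intro c hc
      rcases List.mem_cons.1 hc with rfl | hc
      · simp [allowed]
      · obtain ⟨X, -, rfl⟩ := List.mem_map.1 hc
        exact allowed_e _ _
    · intro c hc
      obtain ⟨X, rfl⟩ := hpl c hc
      exact allowed_e _ _
  | r4 r X =>
    have h3 : C G (St.r2 r) X ∈ u₁ ++ [Sum.inl (NT.orig r.1.lhs)] ++ u₂ :=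
      infix_singleton.1 (hperm (by simp))
    have hq' : St.r2 r = q := hall _ h3
    subst hq'
    have hdec : (u₁ ++ [Y G r] ++ u₂).map (d G) =
        (u₁ ++ [Sum.inl (NT.orig r.1.lhs)] ++ u₂).map (d G) := by simp [d]
    refine build (hdec ▸ hder) ?_ (by simp [allowed]) (q := St.r2 r) hall₁ ⟨?_, ?_, ?_⟩
    · rw [List.countP_append, List.countP_append] at hcnt ⊢
      exact hcnt
    · rw [hdec]; exact hside.1
    · rw [hdec]; exact hside.2.1
    · have := hside.2.2
      rw [cz_append, cz_append, cz_single r _ (by simp)] at this ⊢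
      exact this
  | r5 r =>
    have hz : cz r (u₁ ++ [Y G r] ++ u₂) = 0 := by
      rw [cz_eq_zero]
      intro h
      exact hforb (by simp) (infix_singleton.2 h)
    have hq' : q = St.r2 r ∨ q = St.r3 r := hq
    have hq2 : q = St.r2 r := by
      rcases hq' with h | h
      · exact h
      · subst h
        have := hside.2.2
        change cz r (u₁ ++ [Y G r] ++ u₂) = 1 at this
        omega
    subst hq2
    have hdec : (u₁ ++ [Z G r] ++ u₂).map (d G) = (u₁ ++ [Y G r] ++ u₂).map (d G) := by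
      simp [d]
    refine build (hdec ▸ hder) ?_ (by simp [allowed]) (q := St.r2 r) hall₁ ⟨?_, ?_, ?_⟩
    · rw [List.countP_append, List.countP_append] at hcnt ⊢
      exact hcnt
    · rw [hdec]; exact hside.1
    · rw [hdec]; exact hside.2.1
    · rw [cz_append, cz_append] at hz ⊢
      rw [cz_Z]
      omega
  | r6 r X =>
    have hq' : St.r2 r = q := hq
    subst hq'
    have hnc := countP_split isC u₁ u₂ _ rfl hcnt
    have hdec : (u₁ ++ [C G (St.r3 r) X] ++ u₂).map (d G) =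
        (u₁ ++ [C G (St.r2 r) X] ++ u₂).map (d G) := by simp [d]
    refine build (hdec ▸ hder) (countP_eq_one isC u₁ u₂ _ hnc rfl) (by simp [allowed])
      (q := St.r3 r) (fun c hc => allowed_23 (hnc c hc) (hall₁ c hc)) ⟨?_, ?_, ?_⟩
    · rw [hdec]; exact hside.1
    · rw [hdec]; exact hside.2.1
    · have h1 := hside.2.2
      have h2 : Z G r ∈ u₁ ++ [C G (St.r2 r) X] ++ u₂ := infix_singleton.1 (hperm (by simp))
      have h3 : cz r (u₁ ++ [C G (St.r2 r) X] ++ u₂) ≠ 0 := by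
        rw [Ne, cz_eq_zero]
        exact fun h => h h2
      change cz r (u₁ ++ [C G (St.r2 r) X] ++ u₂) ≤ 1 at h1
      have h4 : cz r (u₁ ++ [C G (St.r2 r) X] ++ u₂) = 1 := by omega
      rw [cz_append, cz_append, cz_single r _ (by simp)] at h4 ⊢
      exact h4
  | r7 r X =>
    have hq' : St.r3 r = q := hq
    subst hq'
    have hnc := countP_split isC u₁ u₂ _ rfl hcnt
    have hdec : (u₁ ++ [C G (St.r4 r) X] ++ u₂).map (d G) =
        (u₁ ++ [C G (St.r3 r) X] ++ u₂).map (d G) := by simp [d]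
    have hY : Y G r ∉ u₁ ++ [C G (St.r3 r) X] ++ u₂ := by
      intro h
      exact hforb (by simp) (infix_singleton.2 h)
    refine build (hdec ▸ hder) (countP_eq_one isC u₁ u₂ _ hnc rfl) (by simp [allowed])
      (q := St.r4 r) (fun c hc => allowed_34 (hnc c hc) (hall₁ c hc) ?_) (Or.inr ⟨?_, ?_, ?_⟩)
    · rintro rfl
      apply hY
      simp only [List.mem_append] at hc ⊢
      tauto
    · have h4 := hside.2.2
      change cz r (u₁ ++ [C G (St.r3 r) X] ++ u₂) = 1 at h4
      rw [cz_append, cz_append, cz_single r _ (by simp)] at h4 ⊢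
      exact h4
    · rw [hdec]; exact hside.1
    · rw [hdec]; exact hside.2.1
  | r8 r X =>
    have h3 : C G (St.r4 r) X ∈ u₁ ++ [Z G r] ++ u₂ :=
      infix_singleton.1 (hperm (by simp))
    have hq' : St.r4 r = q := hall _ h3
    subst hq'
    have hZ : cz r (u₁ ++ [Z G r] ++ u₂) ≠ 0 := by
      rw [Ne, cz_eq_zero]
      simp
    rcases hside with h0 | ⟨h1, hp, hf⟩
    · exact absurd h0 hZ
    have hstep : Step G.rules ((u₁ ++ [Z G r] ++ u₂).map (d G))
        ((u₁ ++ r.1.rhs.map (e G) ++ u₂).map (d G)) := by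
      refine ⟨r.1, r.2, u₁.map (d G), u₂.map (d G), by simp [d], ?_, hp, hf⟩
      rw [List.map_append, List.map_append, map_d_e]
    refine build (hder.tail hstep) ?_ ?_ (q := St.r4 r) hall₁ (Or.inl ?_)
    · rw [List.countP_append, List.countP_append] at hcnt ⊢
      rw [countP_e]
      exact hcnt
    · intro c hc
      obtain ⟨X, -, rfl⟩ := List.mem_map.1 hc
      exact allowed_e _ _
    · change cz r (u₁ ++ [Z G r] ++ u₂) = 1 at h1
      rw [cz_append, cz_append] at h1 ⊢
      rw [cz_Z] at h1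
      rw [cz_e]
      omega
  | r9 r X =>
    have hq' : St.r4 r = q := hq
    subst hq'
    have hnc := countP_split isC u₁ u₂ _ rfl hcnt
    have hdec : (u₁ ++ [C G St.s0 X] ++ u₂).map (d G) =
        (u₁ ++ [C G (St.r4 r) X] ++ u₂).map (d G) := by simp [d]
    have hZ : Z G r ∉ u₁ ++ [C G (St.r4 r) X] ++ u₂ := by
      intro h
      exact hforb (by simp) (infix_singleton.2 h)
    refine build (hdec ▸ hder) (countP_eq_one isC u₁ u₂ _ hnc rfl) (by simp [allowed])
      (q := St.s0) ?_ trivial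
    intro c hc
    obtain ⟨X, rfl⟩ := plain_of4 (hnc c hc) (hall₁ c hc) (by
      rintro rfl
      apply hZ
      simp only [List.mem_append] at hc ⊢
      tauto)
    exact allowed_e _ _
  | r10 a =>
    have hq' : St.s0 = q := hq
    subst hq'
    have hnc := countP_split isC u₁ u₂ _ rfl hcnt
    have hdec : (u₁ ++ [Sum.inr a] ++ u₂).map (d G) =
        (u₁ ++ [C G St.s0 (Sum.inr a)] ++ u₂).map (d G) := by simp [d]
    refine ⟨hdec ▸ hder, Or.inl ?_⟩
    intro c hc
    simp only [List.mem_append, List.mem_singleton] at hc hnc hall₁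
    rcases hc with (hc | rfl) | hc
    · exact ⟨hnc c (Or.inl hc), hall₁ c (Or.inl hc)⟩
    · exact ⟨rfl, trivial⟩
    · exact ⟨hnc c (Or.inr hc), hall₁ c (Or.inr hc)⟩

theorem sound [Finite T] (hd : G.Degree 1 1) : (G' G).lang ⊆ G.lang := by
  intro w hw
  have h0 : Inv [C G St.s0 (Sum.inl G.start)] := by
    refine ⟨Relation.ReflTransGen.refl, Or.inr ⟨St.s0, rfl, ?_, trivial⟩⟩
    intro c hc
    rw [List.mem_singleton] at hc
    subst hc
    rfl
  have key : ∀ s, Relation.ReflTransGen (Step (PS G)) [C G St.s0 (Sum.inl G.start)] s →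
      Inv s := by
    intro s hs
    induction hs with
    | refl => exact h0
    | tail _ h ih => exact inv_step hd ih h
  have h1 := (key _ hw).1
  have h2 : (w.map (Sum.inr : T → N' G ⊕ T)).map (d G) = w.map Sum.inr := by
    rw [List.map_map]; rfl
  have h3 : Relation.ReflTransGen (Step G.rules) [Sum.inl G.start]
    ((w.map (Sum.inr : T → N' G ⊕ T)).map (d G)) := h1
  rw [h2] at h3
  exact h3

theorem lang_eq [Finite T] (hd : G.Degree 1 1) (hp : G.Propagating) :
    (G' G).lang = G.lang :=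
  Set.Subset.antisymm (sound hd) (complete hd hp)

theorem degree_P (hd : G.Degree 1 1) {ρ : Rule (N' G) T} (hρ : P G ρ) :
    ρ.perm.length ≤ 1 ∧ ρ.forb.length ≤ 1 := by
  cases hρ with
  | r1a r X h => simp
  | r1b r X => simpa using (hd r.1 r.2).1
  | r2 r X h h' => simpa using (hd r.1 r.2).2
  | r3 r x₁ x' h h' => simpa using (hd r.1 r.2).2
  | r4 r X => simp
  | r5 r => simp
  | r6 r X => simp
  | r7 r X => simp
  | r8 r X => simp
  | r9 r X => simp
  | r10 a => simp

theorem simple_P {ρ : Rule (N' G) T} (hρ : P G ρ) : ρ.perm = [] ∨ ρ.forb = [] := by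
  cases hρ <;> simp

theorem propagating_P (hp : G.Propagating) {ρ : Rule (N' G) T} (hρ : P G ρ) : ρ.rhs ≠ [] := by
  cases hρ with
  | r8 r X => simpa using hp r.1 r.2
  | _ => simp

/-- **Main theorem.** -/
theorem main (T : Type) [Finite T] : SSCprop T 1 1 = SCprop T 1 1 := by
  ext L
  constructor
  · rintro ⟨G, hd, -, hp, rfl⟩
    exact ⟨G, hd, hp, rfl⟩
  · rintro ⟨G, hd, hp, rfl⟩
    exact ⟨G' G, fun ρ hρ => degree_P hd hρ, fun ρ hρ => simple_P hρ,
      fun ρ hρ => propagating_P hp hρ, lang_eq hd hp⟩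

end Sim

end Pool.Agent.Q314.SC
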